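import Pool.Agent.TEU.Gadget

/-!
# The unified bound for unambiguous thrifty programs (helper32)
-/

set_option autoImplicit false

namespace Pool.Agent.TEU

open Pool.Agent.Lib_helper16.TEP

theorem pow_bd {x : ℝ} {e : ℝ} (hx0 : 0 ≤ x) (hx : x ≤ 2 ^ e) (N : ℕ) :
    x ^ N ≤ (2 : ℝ) ^ (e * N) := by
  calc x ^ N ≤ ((2 : ℝ) ^ e) ^ N := pow_le_pow_left₀ hx0 hx N
    _ = (2 : ℝ) ^ (e * N) := by
        rw [← Real.rpow_natCast, ← Real.rpow_mul (by norm_num)]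

theorem one_add_le_two_rpow {x : ℝ} (hx : 1 ≤ x) : 1 + x ≤ (2 : ℝ) ^ x := by
  have h := one_add_mul_self_le_rpow_one_add (s := 1) (by norm_num) hx
  rw [mul_one] at h
  norm_num at h
  exact h

theorem logb_le_self {x : ℝ} (hx : 0 < x) : Real.logb 2 x ≤ x := by
  rw [Real.logb_le_iff_le_rpow (by norm_num) hx]
  rcases le_total 1 x with h | h
  · linarith [one_add_le_two_rpow h]
  · exact h.trans (Real.one_le_rpow (by norm_num) hx.le)

theorem logb_le_sqrt {y : ℝ} (hy : 0 < y) : Real.logb 2 y ≤ 2 * √y := by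
  have h1 : 0 < √y := Real.sqrt_pos.2 hy
  have h2 : Real.logb 2 y = 2 * Real.logb 2 (√y) := by
    conv_lhs => rw [← Real.sq_sqrt hy.le]
    rw [Real.logb_pow]
    norm_num
  rw [h2]
  linarith [logb_le_self h1]

/-- all factors together -/
theorem size_real (n k m a d : ℕ) (sz rr : ℝ) (lh lam s L : ℝ) (hr : 0 ≤ rr)
    (hsz : sz ≤ (((n : ℝ) * 2 ^ a + 1) ^ (m * d) * ((d : ℝ) * ((st (2 ^ a) m : ℕ) : ℝ))) ^
      (2 * m + 1) * rr * (((((st (2 ^ a) m : ℕ) : ℝ)) ^ (2 * m)) ^ n * (2 * (m : ℝ) + 3) ^ n *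
      (k : ℝ) ^ 2) + rr)
    (h1 : (n : ℝ) * 2 ^ a + 1 ≤ (2 : ℝ) ^ ((a : ℝ) + lh)) (h2 : (d : ℝ) ≤ (2 : ℝ) ^ lam)
    (h3 : ((st (2 ^ a) m : ℕ) : ℝ) ≤ (2 : ℝ) ^ s) (h4 : (k : ℝ) = (2 : ℝ) ^ L) (hlh : 0 ≤ lh)
    (hlam : 0 ≤ lam) (hs : 0 ≤ s) (hL : 0 ≤ L) :
    sz ≤ rr * (2 : ℝ) ^ ((((a : ℝ) + lh) * ((m : ℝ) * d) + (lam + s)) * (2 * m + 1) +
      (s * (2 * m) * n + (2 * m + 3) * n + 2 * L) + 1) := by
  have e1 : ((n : ℝ) * 2 ^ a + 1) ^ (m * d) ≤ (2 : ℝ) ^ (((a : ℝ) + lh) * ((m : ℝ) * d)) := by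
    have := pow_bd (by positivity) h1 (m * d)
    push_cast at this
    exact this
  have e2 : (d : ℝ) * ((st (2 ^ a) m : ℕ) : ℝ) ≤ (2 : ℝ) ^ (lam + s) := by
    rw [Real.rpow_add (by norm_num)]
    exact mul_le_mul h2 h3 (Nat.cast_nonneg _) (by positivity)
  have e3 : ((n : ℝ) * 2 ^ a + 1) ^ (m * d) * ((d : ℝ) * ((st (2 ^ a) m : ℕ) : ℝ)) ≤
      (2 : ℝ) ^ (((a : ℝ) + lh) * ((m : ℝ) * d) + (lam + s)) := by
    rw [Real.rpow_add (by norm_num)]
    exact mul_le_mul e1 e2 (by positivity) (by positivity)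
  have e4 := pow_bd (by positivity) e3 (2 * m + 1)
  have e5 : ((((st (2 ^ a) m : ℕ) : ℝ)) ^ (2 * m)) ^ n ≤ (2 : ℝ) ^ (s * (2 * m) * n) := by
    have := pow_bd (by positivity) (pow_bd (Nat.cast_nonneg _) h3 (2 * m)) n
    push_cast at this
    exact this
  have e6 : (2 * (m : ℝ) + 3) ^ n ≤ (2 : ℝ) ^ ((2 * (m : ℝ) + 3) * n) := by
    apply pow_bd (by positivity)
    have h5 := one_add_le_two_rpow (x := 2 * (m : ℝ) + 3) (by
      have : (0 : ℝ) ≤ m := Nat.cast_nonneg m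
      linarith)
    linarith
  have e7 : (k : ℝ) ^ 2 = (2 : ℝ) ^ (2 * L) := by
    rw [h4, ← Real.rpow_natCast, ← Real.rpow_mul (by norm_num)]
    congr 1
    push_cast
    ring
  have e8 : ((((st (2 ^ a) m : ℕ) : ℝ)) ^ (2 * m)) ^ n * (2 * (m : ℝ) + 3) ^ n * (k : ℝ) ^ 2 ≤
      (2 : ℝ) ^ (s * (2 * m) * n + (2 * m + 3) * n + 2 * L) := by
    rw [Real.rpow_add (by norm_num), Real.rpow_add (by norm_num), e7]
    gcongr
  push_cast at e4
  have e9 : (((n : ℝ) * 2 ^ a + 1) ^ (m * d) * ((d : ℝ) * ((st (2 ^ a) m : ℕ) : ℝ))) ^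
      (2 * m + 1) * (((((st (2 ^ a) m : ℕ) : ℝ)) ^ (2 * m)) ^ n * (2 * (m : ℝ) + 3) ^ n *
      (k : ℝ) ^ 2) ≤ (2 : ℝ) ^ ((((a : ℝ) + lh) * ((m : ℝ) * d) + (lam + s)) * (2 * m + 1) +
      (s * (2 * m) * n + (2 * m + 3) * n + 2 * L)) := by
    rw [Real.rpow_add (by norm_num) ((((a : ℝ) + lh) * ((m : ℝ) * d) + (lam + s)) * (2 * m + 1))]
    exact mul_le_mul e4 e8 (by positivity) (by positivity)
  have e10 : (1 : ℝ) ≤ (2 : ℝ) ^ ((((a : ℝ) + lh) * ((m : ℝ) * d) + (lam + s)) * (2 * m + 1) +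
      (s * (2 * m) * n + (2 * m + 3) * n + 2 * L)) := by
    apply Real.one_le_rpow (by norm_num)
    positivity
  rw [Real.rpow_add (by norm_num) _ 1, Real.rpow_one]
  set X := (2 : ℝ) ^ ((((a : ℝ) + lh) * ((m : ℝ) * d) + (lam + s)) * (2 * m + 1) +
      (s * (2 * m) * n + (2 * m + 3) * n + 2 * L)) with hX
  calc sz ≤ _ := hsz
    _ = rr * ((((n : ℝ) * 2 ^ a + 1) ^ (m * d) * ((d : ℝ) * ((st (2 ^ a) m : ℕ) : ℝ))) ^
      (2 * m + 1) * (((((st (2 ^ a) m : ℕ) : ℝ)) ^ (2 * m)) ^ n * (2 * (m : ℝ) + 3) ^ n *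
      (k : ℝ) ^ 2)) + rr := by ring
    _ ≤ rr * X + rr * X := by
        apply add_le_add
        · exact mul_le_mul_of_nonneg_left e9 hr
        · nlinarith
    _ = rr * (X * 2) := by ring

/-- the constant -/
noncomputable def cst (ε M : ℝ) : ℝ :=
  (2 + ε) + (2 * M + 1) * M * (M + 2) + (2 * M + 1) * (8 + M) + (2 * M + 1) +
    (2 * M + 1) * (1 + M + 2 * (M + 2)) + 2 * M * (1 + M + 2 * (M + 2)) + (2 * M + 3) + 1

/-- the inequality between the exponents -/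
theorem exponent {ε M b L T h S n lh lam a d s : ℝ} (hε : 0 < ε) (hM4 : 4 ≤ M) (hM2 : 0 < M - 2)
    (h5M : 5 / ε ≤ M - 2) (hb0 : 0 ≤ b) (hb2 : b ≤ L + 1) (hL1 : 1 ≤ L) (hT : T = h + S)
    (hs : s = 1 + M + 2 * a) (hnT : n ≤ T) (hT1 : 1 ≤ T) (hlh0 : 0 ≤ lh) (hlhh : lh ≤ h)
    (hlh2 : L * lh ≤ 2 * (L * lam) + 2 * h) (hLla : L * lam ≤ S * a) (hS0 : 0 ≤ S) (hh1 : 1 ≤ h)
    (ha0 : 0 < a) (ha1 : 1 ≤ a) (haT : a ≤ (M + 2) * T) (hnaT : n * a ≤ (M + 2) * T)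
    (hta : (M * d) * a ≤ b / (M - 2) + M * a) (htd : M * d ≤ b / a + M) (hlamS : lam ≤ S) :
    ((a + lh) * (M * d) + (lam + s)) * (2 * M + 1) + (s * (2 * M) * n + (2 * M + 3) * n + 2 * L) +
      1 ≤ L * (4 + ε) + cst ε M * T := by
  have hr1 : (2 * M + 1) * (b / (M - 2)) ≤ (2 + ε) * (L + 1) := by
    have h1 : (2 * M + 1) / (M - 2) ≤ 2 + ε := by
      rw [div_le_iff₀ hM2]
      have h2 : 5 ≤ ε * (M - 2) := by
        have h3 : 5 / ε ≤ M - 2 := by linarith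
        rw [div_le_iff₀ hε] at h3
        linarith
      linarith
    calc (2 * M + 1) * (b / (M - 2)) = (2 * M + 1) / (M - 2) * b := by ring
      _ ≤ (2 + ε) * (L + 1) := mul_le_mul h1 hb2 hb0 (by linarith)
  have hE1 : (2 * M + 1) * ((M * d) * a) ≤
      (2 + ε) * L + (2 + ε) * T + (2 * M + 1) * M * (M + 2) * T := by
    have h1 : (2 * M + 1) * ((M * d) * a) ≤ (2 * M + 1) * (b / (M - 2) + M * a) :=
      mul_le_mul_of_nonneg_left hta (by linarith)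
    have h2 : (2 * M + 1) * M * a ≤ (2 * M + 1) * M * ((M + 2) * T) :=
      mul_le_mul_of_nonneg_left haT (by positivity)
    have h3 : (2 + ε) * 1 ≤ (2 + ε) * T := mul_le_mul_of_nonneg_left hT1 (by linarith)
    linarith
  have hE2 : (M * d) * lh ≤ (8 + M) * T := by
    have h1 : (M * d) * lh ≤ (b / a + M) * lh := mul_le_mul_of_nonneg_right htd hlh0
    have h2 : b / a * lh ≤ 4 * S + 4 * h := by
      have h3 : b / a * lh = b * lh / a := by ring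
      rw [h3, div_le_iff₀ ha0]
      have h4 : b * lh ≤ (2 * L) * lh := mul_le_mul_of_nonneg_right (by linarith) hlh0
      have h5 : h * 1 ≤ h * a := mul_le_mul_of_nonneg_left ha1 (by linarith)
      linarith
    have h3 : M * lh ≤ M * T := by
      apply mul_le_mul_of_nonneg_left _ (by linarith)
      rw [hT]
      linarith
    have h4 : 4 * S + 4 * h ≤ 8 * T := by
      rw [hT]
      linarith
    linarith
  have hE2' := mul_le_mul_of_nonneg_left hE2 (by linarith : (0 : ℝ) ≤ 2 * M + 1)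
  have hE3 : (2 * M + 1) * lam ≤ (2 * M + 1) * T := by
    apply mul_le_mul_of_nonneg_left _ (by linarith)
    rw [hT]
    linarith
  have hsT : s ≤ (1 + M + 2 * (M + 2)) * T := by
    rw [hs]
    have h1 : (1 + M) * 1 ≤ (1 + M) * T := mul_le_mul_of_nonneg_left hT1 (by linarith)
    linarith
  have hE4 : (2 * M + 1) * s ≤ (2 * M + 1) * ((1 + M + 2 * (M + 2)) * T) :=
    mul_le_mul_of_nonneg_left hsT (by linarith)
  have hE5 : s * (2 * M) * n ≤ 2 * M * ((1 + M + 2 * (M + 2)) * T) := by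
    have h1 : s * n = (1 + M) * n + 2 * (n * a) := by
      rw [hs]
      ring
    have h2 : (1 + M) * (n : ℝ) ≤ (1 + M) * T := mul_le_mul_of_nonneg_left hnT (by linarith)
    have h3 : s * n ≤ (1 + M + 2 * (M + 2)) * T := by
      rw [h1]
      linarith
    have h4 : s * (2 * M) * n = 2 * M * (s * n) := by ring
    rw [h4]
    exact mul_le_mul_of_nonneg_left h3 (by linarith)
  have hE6 : (2 * M + 3) * (n : ℝ) ≤ (2 * M + 3) * T :=
    mul_le_mul_of_nonneg_left hnT (by linarith)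
  unfold cst
  linarith

/-- the two square roots -/
theorem basics {L lam h : ℝ} (hL1 : 1 ≤ L) (hlam1 : 1 ≤ lam) (hlamL : lam ≤ L) (hh1 : 1 ≤ h) :
    0 ≤ √(L * lam / h) ∧ 0 ≤ √(h * L * lam) ∧ h * √(L * lam / h) = √(h * L * lam) ∧
      √(L * lam / h) ≤ √(h * L * lam) ∧ lam ≤ √(h * L * lam) ∧
      L * lam = √(h * L * lam) * √(L * lam / h) := by
  have hLl : 0 ≤ L * lam := by nlinarith
  set ρ : ℝ := √(L * lam / h) with hρdef
  set S : ℝ := √(h * L * lam) with hSdef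
  have hρ0 : 0 ≤ ρ := Real.sqrt_nonneg _
  have hS0 : 0 ≤ S := Real.sqrt_nonneg _
  have hρ2 : ρ ^ 2 = L * lam / h := Real.sq_sqrt (by positivity)
  have hS2 : S ^ 2 = h * L * lam := Real.sq_sqrt (by positivity)
  have hρ2' : h * ρ ^ 2 = L * lam := by
    rw [hρ2]
    field_simp
  have hhρ : h * ρ = S := by
    rw [hSdef, hρdef]
    rw [show h * L * lam = h ^ 2 * (L * lam / h) by field_simp]
    rw [Real.sqrt_mul (by positivity), Real.sqrt_sq (by linarith)]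
  have hρS : ρ ≤ S := by
    rw [← hhρ]
    nlinarith
  have hlamS : lam ≤ S := by
    have h1 : lam ^ 2 ≤ S ^ 2 := by
      rw [hS2]
      nlinarith [mul_nonneg (by linarith : (0 : ℝ) ≤ h - 1) hLl]
    exact (pow_le_pow_iff_left₀ (by linarith) hS0 (by norm_num)).1 h1
  refine ⟨hρ0, hS0, hhρ, hρS, hlamS, ?_⟩
  rw [← hhρ, ← hρ2']
  ring

/-- the logarithm of the height -/
theorem lh_bound {L h : ℝ} (hL1 : 1 ≤ L) (hh1 : 1 ≤ h) :
    L * Real.logb 2 h ≤ 2 * (L * Real.logb 2 (1 + L)) + 2 * h := by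
  set lh : ℝ := Real.logb 2 h with hlhdef
  set lam : ℝ := Real.logb 2 (1 + L) with hlamdef
  have h1 : h ≤ (1 + L) ^ 2 * (h / L ^ 2) := by
    rw [mul_div_assoc', le_div_iff₀ (by positivity)]
    have : L ^ 2 ≤ (1 + L) ^ 2 := by nlinarith
    nlinarith
  have h2 : lh ≤ 2 * lam + 2 * √(h / L ^ 2) := by
    have h3 : lh ≤ Real.logb 2 ((1 + L) ^ 2 * (h / L ^ 2)) :=
      Real.logb_le_logb_of_le (by norm_num) (by linarith) h1
    rw [Real.logb_mul (by positivity) (by positivity), Real.logb_pow] at h3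
    have h4 := logb_le_sqrt (y := h / L ^ 2) (by positivity)
    push_cast at h3
    linarith
  have h3 : √(h / L ^ 2) = √h / L := by
    rw [Real.sqrt_div (by linarith), Real.sqrt_sq (by linarith)]
  rw [h3] at h2
  have h4 : √h ≤ h := by
    rw [Real.sqrt_le_left (by linarith)]
    nlinarith
  have h5 : L * lh ≤ L * (2 * lam + 2 * (√h / L)) :=
    mul_le_mul_of_nonneg_left h2 (by linarith)
  have h6 : L * (2 * lam + 2 * (√h / L)) = 2 * (L * lam) + 2 * √h := by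
    field_simp
  linarith

/-- the number of strips -/
theorem st_bound (m a : ℕ) (hm : 1 ≤ m) :
    ((st (2 ^ a) m : ℕ) : ℝ) ≤ (2 : ℝ) ^ (1 + (m : ℝ) + 2 * a) := by
  unfold st
  push_cast
  have hm1 : (1 : ℝ) ≤ m := by exact_mod_cast hm
  have h1 : (m : ℝ) ≤ (2 : ℝ) ^ (m : ℝ) := by linarith [one_add_le_two_rpow hm1]
  have h2 : (1 : ℝ) ≤ ((2 : ℝ) ^ a) ^ 2 := one_le_pow₀ (one_le_pow₀ (by norm_num))
  have h3 : (2 : ℝ) ^ (1 + (m : ℝ) + 2 * a) = 2 * (2 : ℝ) ^ (m : ℝ) * ((2 : ℝ) ^ a) ^ 2 := by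
    rw [Real.rpow_add (by norm_num), Real.rpow_add (by norm_num), Real.rpow_one,
      mul_comm 2 (a : ℝ), Real.rpow_mul (by norm_num), Real.rpow_natCast 2 a]
    norm_num
  rw [h3]
  have h4 : (m : ℝ) * ((2 : ℝ) ^ a) ^ 2 ≤ (2 : ℝ) ^ (m : ℝ) * ((2 : ℝ) ^ a) ^ 2 := by gcongr
  have h5 : (1 : ℝ) ≤ (2 : ℝ) ^ (m : ℝ) * ((2 : ℝ) ^ a) ^ 2 :=
    one_le_mul_of_one_le_of_one_le (Real.one_le_rpow (by norm_num) (by linarith)) h2
  linarith

/-- the distance of the code -/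
theorem exists_dist (m a b : ℕ) (hm : 4 ≤ m) (ha : m ≤ a) : ∃ d : ℕ, 1 ≤ d ∧
    b ≤ m * (d * (a * (m - 2))) ∧ ((m : ℝ) * d) * a ≤ b / ((m : ℝ) - 2) + m * a ∧
    (m : ℝ) * d ≤ b / a + m ∧ (d : ℝ) ≤ b / 2 + 1 := by
  have hmR : (4 : ℝ) ≤ m := by exact_mod_cast hm
  have haR : (m : ℝ) ≤ a := by exact_mod_cast ha
  have ha0 : (0 : ℝ) < a := by linarith
  have hm0 : (0 : ℝ) < m := by linarith
  have hM2 : 0 < (m : ℝ) - 2 := by linarith
  have hb0 : (0 : ℝ) ≤ b := Nat.cast_nonneg b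
  have hm2 : ((m - 2 : ℕ) : ℝ) = (m : ℝ) - 2 := by
    rw [Nat.cast_sub (by omega)]
    push_cast
    rfl
  have hdenpos : 0 < m * (a * (m - 2)) := by
    have h1 : 0 < m := by omega
    have h2 : 0 < a := by omega
    have h3 : 0 < m - 2 := by omega
    positivity
  have hdR : ((b / (m * (a * (m - 2))) + 1 : ℕ) : ℝ) ≤ b / (m * (a * ((m : ℝ) - 2))) + 1 := by
    push_cast
    have h1 : ((b / (m * (a * (m - 2))) : ℕ) : ℝ) ≤ (b : ℝ) / ((m * (a * (m - 2)) : ℕ) : ℝ) :=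
      Nat.cast_div_le
    push_cast [hm2] at h1
    linarith
  refine ⟨b / (m * (a * (m - 2))) + 1, Nat.le_add_left 1 _, ?_, ?_, ?_, ?_⟩
  · have h1 : b < m * (a * (m - 2)) * (b / (m * (a * (m - 2))) + 1) :=
      Nat.lt_mul_div_succ b hdenpos
    have h2 : m * (a * (m - 2)) * (b / (m * (a * (m - 2))) + 1) =
        m * ((b / (m * (a * (m - 2))) + 1) * (a * (m - 2))) := by ring
    omega
  · have h1 : ((m : ℝ) * ((b / (m * (a * (m - 2))) + 1 : ℕ) : ℝ)) * a ≤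
        (m * (b / (m * (a * ((m : ℝ) - 2))) + 1)) * a := by
      gcongr
    have h2 : ((m : ℝ) * (b / (m * (a * ((m : ℝ) - 2))) + 1)) * a = b / ((m : ℝ) - 2) + m * a := by
      field_simp
    linarith
  · have h1 : (m : ℝ) * ((b / (m * (a * (m - 2))) + 1 : ℕ) : ℝ) ≤
        m * (b / (m * (a * ((m : ℝ) - 2))) + 1) := by
      gcongr
    have h2 : (m : ℝ) * (b / (m * (a * ((m : ℝ) - 2))) + 1) = b / a / ((m : ℝ) - 2) + m := by
      field_simp
    have h3 : (b : ℝ) / a / ((m : ℝ) - 2) ≤ b / a := div_le_self (by positivity) (by linarith)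
    linarith
  · have h0 : (2 : ℝ) ≤ m * (a * ((m : ℝ) - 2)) := by
      have g1 : (4 : ℝ) * 2 ≤ a * ((m : ℝ) - 2) :=
        mul_le_mul (by linarith) (by linarith) (by norm_num) ha0.le
      have g2 : (4 : ℝ) * (4 * 2) ≤ m * (a * ((m : ℝ) - 2)) :=
        mul_le_mul hmR g1 (by norm_num) (by linarith)
      linarith
    have h1 : (b : ℝ) / (m * (a * ((m : ℝ) - 2))) ≤ b / 2 :=
      div_le_div_of_nonneg_left hb0 (by norm_num) h0
    linarith

/-- **The unified bound.** -/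
theorem unified (ε : ℝ) (hε : 0 < ε) : ∃ C : ℝ, ∀ n k : ℕ, 2 ≤ k → ∀ (R : Type) [Fintype R]
    (g : Fin k → R), ∃ B : NBP (Var k n) k R, B.Computes (fun I => g (value n I)) ∧ Thrifty B ∧
      B.Unambiguous ∧ (B.size : ℝ) ≤ Fintype.card R * (k : ℝ) ^ (4 + ε) * (2 : ℝ) ^
        (C * ((n : ℝ) + 1 +
          √(((n : ℝ) + 1) * Real.logb 2 k * Real.logb 2 (1 + Real.logb 2 k)))) := by
  obtain ⟨m, hm⟩ := exists_nat_ge (4 + 5 / ε)
  have h5ε : 0 < 5 / ε := by positivity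
  have hmR : (4 : ℝ) ≤ m := by linarith
  have hm4 : 4 ≤ m := by exact_mod_cast hmR
  refine ⟨cst ε m, ?_⟩
  intro n k hk R _ g
  have hk0 : (0 : ℝ) < k := by
    have : 0 < k := by omega
    exact_mod_cast this
  have hk2 : (2 : ℝ) ≤ k := by exact_mod_cast hk
  have hL1 : 1 ≤ Real.logb 2 k := by
    rw [Real.le_logb_iff_rpow_le (by norm_num) hk0, Real.rpow_one]
    exact hk2
  have hkL : (k : ℝ) = (2 : ℝ) ^ Real.logb 2 k := by
    rw [Real.rpow_logb (by norm_num) (by norm_num) hk0]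
  generalize Real.logb 2 k = L at hL1 hkL ⊢
  have hlh2 := lh_bound hL1 (h := (n : ℝ) + 1) (by
    have : (0 : ℝ) ≤ n := Nat.cast_nonneg n
    linarith)
  have hlam1 : 1 ≤ Real.logb 2 (1 + L) := by
    rw [Real.le_logb_iff_rpow_le (by norm_num) (by linarith), Real.rpow_one]
    linarith
  have hLlam : 1 + L = (2 : ℝ) ^ Real.logb 2 (1 + L) := by
    rw [Real.rpow_logb (by norm_num) (by norm_num) (by linarith)]
  have hlamL : Real.logb 2 (1 + L) ≤ L := by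
    rw [Real.logb_le_iff_le_rpow (by norm_num) (by linarith)]
    exact one_add_le_two_rpow hL1
  generalize Real.logb 2 (1 + L) = lam at hlh2 hlam1 hLlam hlamL ⊢
  have hn0 : (0 : ℝ) ≤ n := Nat.cast_nonneg n
  obtain ⟨h, hh⟩ : ∃ h : ℝ, h = (n : ℝ) + 1 := ⟨_, rfl⟩
  have hh1 : 1 ≤ h := by
    rw [hh]
    linarith
  rw [← hh] at hlh2 ⊢
  have hlh0 : 0 ≤ Real.logb 2 h := Real.logb_nonneg (by norm_num) hh1
  have hhlh : h = (2 : ℝ) ^ Real.logb 2 h := by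
    rw [Real.rpow_logb (by norm_num) (by norm_num) (by linarith)]
  have hlhh : Real.logb 2 h ≤ h := logb_le_self (by linarith)
  generalize Real.logb 2 h = lh at hlh2 hlh0 hhlh hlhh
  obtain ⟨hρ0, hS0, hhρ, hρS, hlamS, hLρ⟩ := basics hL1 hlam1 hlamL hh1
  generalize √(L * lam / h) = ρ at hρ0 hhρ hρS hLρ
  generalize √(h * L * lam) = S at hS0 hhρ hρS hlamS hLρ ⊢
  -- the bits of `k`
  obtain ⟨b, hb⟩ : ∃ b : ℕ, b = ⌈L⌉₊ := ⟨_, rfl⟩
  have hb1 : (L : ℝ) ≤ b := by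
    rw [hb]
    exact Nat.le_ceil L
  have hb2 : (b : ℝ) ≤ L + 1 := by
    rw [hb]
    exact (Nat.ceil_lt_add_one (by linarith)).le
  have hkb : k ≤ 2 ^ b := by
    have : (k : ℝ) ≤ ((2 ^ b : ℕ) : ℝ) := by
      rw [hkL]
      push_cast
      rw [← Real.rpow_natCast]
      exact Real.rpow_le_rpow_of_exponent_le (by norm_num) hb1
    exact_mod_cast this
  -- the digits
  obtain ⟨a, hadef⟩ : ∃ a : ℕ, a = m + ⌈ρ⌉₊ := ⟨_, rfl⟩
  have ham : m ≤ a := by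
    rw [hadef]
    exact Nat.le_add_right _ _
  have haM : (m : ℝ) ≤ (a : ℝ) := by exact_mod_cast ham
  have haρ : ρ ≤ (a : ℝ) := by
    rw [hadef]
    push_cast
    have := Nat.le_ceil ρ
    linarith
  have haR2 : (a : ℝ) ≤ (m : ℝ) + ρ + 1 := by
    rw [hadef]
    push_cast
    have := (Nat.ceil_lt_add_one hρ0).le
    linarith
  have ha0 : (0 : ℝ) < a := by linarith
  obtain ⟨d, hd1, hbd, hta, htd, hd2⟩ := exists_dist m a b hm4 ham
  obtain ⟨B, hB1, hB2, hB4, hB3⟩ := size_mix n k m a d (by omega) (by omega) ham hd1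
    (hkb.trans (Nat.pow_le_pow_right (by norm_num) hbd)) R g
  refine ⟨B, hB1, hB2, hB4, ?_⟩
  have hdig : (n : ℝ) * 2 ^ a + 1 ≤ (2 : ℝ) ^ ((a : ℝ) + lh) := by
    rw [Real.rpow_add (by norm_num), ← hhlh, Real.rpow_natCast, hh]
    have h1 : (1 : ℝ) ≤ (2 : ℝ) ^ a := one_le_pow₀ (by norm_num)
    linarith
  have hdL : (d : ℝ) ≤ (2 : ℝ) ^ lam := by
    rw [← hLlam]
    linarith
  have hsz : (B.size : ℝ) ≤ (((n : ℝ) * 2 ^ a + 1) ^ (m * d) *
      ((d : ℝ) * ((st (2 ^ a) m : ℕ) : ℝ))) ^ (2 * m + 1) * (Fintype.card R : ℝ) *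
      (((((st (2 ^ a) m : ℕ) : ℝ)) ^ (2 * m)) ^ n * (2 * (m : ℝ) + 3) ^ n * (k : ℝ) ^ 2) +
      (Fintype.card R : ℝ) := by
    unfold mo at hB3
    exact_mod_cast hB3
  have hfin := size_real n k m a d B.size (Fintype.card R) lh lam (1 + (m : ℝ) + 2 * a) L
    (Nat.cast_nonneg _) hsz hdig hdL (st_bound m a (by omega)) hkL hlh0 (by linarith)
    (by positivity) (by linarith)
  refine hfin.trans ?_
  rw [mul_assoc (Fintype.card R : ℝ) ((k : ℝ) ^ (4 + ε))]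
  apply mul_le_mul_of_nonneg_left _ (Nat.cast_nonneg _)
  have e0 : (k : ℝ) ^ (4 + ε) = (2 : ℝ) ^ (L * (4 + ε)) := by
    rw [hkL, ← Real.rpow_mul (by norm_num)]
  rw [e0, ← Real.rpow_add (by norm_num)]
  apply Real.rpow_le_rpow_of_exponent_le (by norm_num)
  have hT1 : 1 ≤ h + S := by linarith
  have hmT : (m : ℝ) + 1 ≤ ((m : ℝ) + 1) * (h + S) := le_mul_of_one_le_right (by positivity) hT1
  have haT : (a : ℝ) ≤ ((m : ℝ) + 2) * (h + S) := by linarith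
  have hnaT : (n : ℝ) * a ≤ ((m : ℝ) + 2) * (h + S) := by
    have h1 : (n : ℝ) * a ≤ h * ((m : ℝ) + ρ + 1) :=
      mul_le_mul (by linarith) haR2 ha0.le (by linarith)
    have h2 : h * ((m : ℝ) + ρ + 1) = ((m : ℝ) + 1) * h + S := by
      rw [← hhρ]
      ring
    have h3 : 0 ≤ ((m : ℝ) + 1) * S := by positivity
    linarith
  have hLla : L * lam ≤ S * a := by
    rw [hLρ]
    exact mul_le_mul_of_nonneg_left haρ hS0
  exact exponent hε hmR (by linarith) (by linarith) (Nat.cast_nonneg b) hb2 hL1 rfl rfl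
    (by linarith) hT1 hlh0 hlhh hlh2 hLla hS0 hh1 ha0 (by linarith) haT hnaT hta htd hlamS

end Pool.Agent.TEU
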