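import Pool.Agent.Lib_helper16.TEP.GadgetMod
import Pool.Agent.Lib_helper16.TEP.Master

/-!
# The mixed gadget: integer digits and a modular quadratic form with strips (helper32)
-/

set_option autoImplicit false

namespace Pool.Agent.TEU

open Pool.Agent.Lib_helper16.TEP

/-- number of strips -/
def st (q r : ℕ) : ℕ := r * q ^ 2 + 1

/-- modulus -/
def mo (q r d : ℕ) : ℕ := d * st q r

theorem mo_pos {q r d : ℕ} (hd : 1 ≤ d) : 0 < mo q r d := by
  unfold mo st
  positivity

/-- the mixed gadget -/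
def mixGadget (k q r d N : ℕ) (hd : 1 ≤ d) (w : Fin k → (Fin (r * d) → Fin q))
    (hw : ∀ v v', v ≠ v' → d ≤ hammingDist (w v) (w v')) : Gadget (Fin k) N :=
  haveI : NeZero (mo q r d) := ⟨(mo_pos hd).ne'⟩
  { G := (Fin (r * d) → Fin (N * q + 1)) × ZMod (mo q r d)
    C := Fin (st q r)
    load := fun v g =>
      if h : ∀ i, (g.1 i : ℕ) + (w v i : ℕ) < N * q + 1
      then some (fun i => ⟨(g.1 i : ℕ) + (w v i : ℕ), h i⟩, g.2 + nrmz (mo q r d) (w v)) else none
    unload := fun v g =>
      if ∀ i, (w v i : ℕ) ≤ (g.1 i : ℕ)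
      then some (fun i => ⟨(g.1 i : ℕ) - (w v i : ℕ), lt_of_le_of_lt (Nat.sub_le _ _) (g.1 i).2⟩,
        g.2 - nrmz (mo q r d) (w v)) else none
    color := fun v g => ⟨(frm (w v) (fun i => (((g.1 i : ℕ) : ZMod (mo q r d))), g.2)).val / d, by
      have h := ZMod.val_lt (frm (w v) (fun i => (((g.1 i : ℕ) : ZMod (mo q r d))), g.2))
      rw [Nat.div_lt_iff_lt_mul (by omega)]
      exact lt_of_lt_of_eq h (mul_comm _ _)⟩
    Lvl := fun j g => ∀ i, (g.1 i : ℕ) ≤ j * q
    base := (fun _ => 0, 0)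
    base_lvl := by simp
    mono := by
      intro j g h i
      exact (h i).trans (Nat.mul_le_mul_right _ (Nat.le_succ j))
    sound := by
      intro v v' h h1 h2 hl hun hc
      split_ifs at hl with hl1
      · split_ifs at hun with hu1
        · simp only [Option.some.injEq] at hl hun
          subst hl
          subst hun
          simp only [Fin.mk.injEq] at hc hu1
          by_cases hvv : v' = v
          · refine ⟨hvv, ?_⟩
            subst hvv
            apply Prod.ext
            · funext i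
              apply Fin.ext
              simp
            · simp
          · exfalso
            have hD1 : d ≤ sqd (w v') (w v) := (hw v' v hvv).trans (sqd_ge _ _)
            have hD2 : sqd (w v') (w v) + d ≤ mo q r d := by
              have := sqd_le (w v') (w v)
              unfold mo st
              nlinarith
            have hcast : (fun i => ((((h.1 i : ℕ) + (w v' i : ℕ) - (w v i : ℕ) : ℕ)) :
                ZMod (mo q r d))) = fun i => ((h.1 i : ℕ) : ZMod (mo q r d)) +
                ((w v' i : ℕ) : ZMod (mo q r d)) - ((w v i : ℕ) : ZMod (mo q r d)) := by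
              funext i
              rw [Nat.cast_sub (hu1 i)]
              push_cast
              ring
            rw [hcast] at hc
            exact strip hd hD1 hD2 _ _
              (frm_shift (w v) (w v') (fun i => (((h.1 i : ℕ) : ZMod (mo q r d))), h.2)) hc
    complete := by
      intro j hj v h hlv
      have a1 : ∀ i, (h.1 i : ℕ) + (w v i : ℕ) ≤ (j + 1) * q := by
        intro i
        have := hlv i
        have := (w v i).2
        nlinarith
      have b1 : (j + 1) * q ≤ N * q := Nat.mul_le_mul_right _ hj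
      have hcond : ∀ i, (h.1 i : ℕ) + (w v i : ℕ) < N * q + 1 :=
        fun i => Nat.lt_succ_of_le ((a1 i).trans b1)
      refine ⟨(fun i => ⟨(h.1 i : ℕ) + (w v i : ℕ), hcond i⟩, h.2 + nrmz (mo q r d) (w v)),
        dif_pos hcond, a1, ?_⟩
      have hc2 : ∀ i, (w v i : ℕ) ≤ (h.1 i : ℕ) + (w v i : ℕ) := fun i => Nat.le_add_left _ _
      rw [if_pos hc2]
      congr 1
      apply Prod.ext
      · funext i
        apply Fin.ext
        simp
      · simp }

theorem card_mixG (k q r d N : ℕ) (hd : 1 ≤ d) (w : Fin k → (Fin (r * d) → Fin q))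
    (hw : ∀ v v', v ≠ v' → d ≤ hammingDist (w v) (w v')) :
    Fintype.card (mixGadget k q r d N hd w hw).G = (N * q + 1) ^ (r * d) * mo q r d := by
  have : NeZero (mo q r d) := ⟨(mo_pos hd).ne'⟩
  show Fintype.card ((Fin (r * d) → Fin (N * q + 1)) × ZMod (mo q r d)) = _
  rw [Fintype.card_prod, Fintype.card_fun, ZMod.card, Fintype.card_fin, Fintype.card_fin]

theorem card_mixC (k q r d N : ℕ) (hd : 1 ≤ d) (w : Fin k → (Fin (r * d) → Fin q))
    (hw : ∀ v v', v ≠ v' → d ≤ hammingDist (w v) (w v')) :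
    Fintype.card (mixGadget k q r d N hd w hw).C = st q r := by
  show Fintype.card (Fin (st q r)) = _
  rw [Fintype.card_fin]

/-- a code of rate close to one: alphabet `2 ^ a`, length `m * d`, distance `d`,
`2 ^ (d * (a * (m - 2)))` words -/
theorem exists_words' {a m d : ℕ} (hm : 2 ≤ m) (ha : m ≤ a) (hd : 1 ≤ d) :
    ∃ w : Fin (2 ^ (d * (a * (m - 2)))) → (Fin (m * d) → Fin (2 ^ a)),
      ∀ v v', v ≠ v' → d ≤ hammingDist (w v) (w v') := by
  obtain ⟨C, hC1, hC2⟩ := exists_code (t := m * d) (q := 2 ^ a) Nat.one_le_two_pow hd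
  have hcard : 2 ^ (d * (a * (m - 2))) ≤ C.card := by
    have h1 : 2 ^ (d * (a * (m - 2))) * (2 ^ (m * d) * (2 ^ a) ^ d) ≤
        C.card * (2 ^ (m * d) * (2 ^ a) ^ d) := by
      refine le_trans ?_ hC2
      rw [← pow_mul, ← pow_mul, ← pow_add, ← pow_add]
      apply Nat.pow_le_pow_right (by norm_num)
      obtain ⟨c, rfl⟩ : ∃ c, m = c + 2 := ⟨m - 2, by omega⟩
      have h2 : c + 2 - 2 = c := by omega
      rw [h2]
      have h3 : d * (c + 2) ≤ d * a := Nat.mul_le_mul_left _ ha
      calc d * (a * c) + ((c + 2) * d + a * d) = d * (a * c) + (d * (c + 2) + a * d) := by ring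
        _ ≤ d * (a * c) + (d * a + a * d) := by omega
        _ = a * ((c + 2) * d) := by ring
    have h2 : 0 < 2 ^ (m * d) * (2 ^ a) ^ d := by positivity
    exact Nat.le_of_mul_le_mul_right h1 h2
  have hc : Fintype.card (Fin (2 ^ (d * (a * (m - 2))))) ≤ Fintype.card C := by
    rw [Fintype.card_fin, Fintype.card_coe]
    exact hcard
  obtain ⟨f⟩ := Function.Embedding.nonempty_of_card_le hc
  refine ⟨fun v => (f v : Fin (m * d) → Fin (2 ^ a)), fun v v' hv => ?_⟩
  refine hC1 _ (f v).2 _ (f v').2 ?_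
  intro h
  exact hv (f.injective (Subtype.ext h))

/-- the size for given parameters -/
theorem size_mix (n k m a d : ℕ) (hk : 1 ≤ k) (hm : 2 ≤ m) (ha : m ≤ a) (hd : 1 ≤ d)
    (hkk : k ≤ 2 ^ (m * (d * (a * (m - 2))))) (R : Type) [Fintype R] (g : Fin k → R) :
    ∃ B : NBP (Var k n) k R, B.Computes (fun I => g (value n I)) ∧ Thrifty B ∧ B.Unambiguous ∧
      B.size ≤ (((n * 2 ^ a + 1) ^ (m * d) * mo (2 ^ a) m d) ^ (2 * m + 1) * Fintype.card R *
        ((st (2 ^ a) m ^ (2 * m)) ^ n * (2 * m + 3) ^ n * k ^ 2)) + Fintype.card R := by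
  obtain ⟨w, hw⟩ := exists_words' hm ha hd
  have hc : Fintype.card (Fin k) ≤ Fintype.card (Fin m → Fin (2 ^ (d * (a * (m - 2))))) := by
    rw [Fintype.card_fun, Fintype.card_fin, Fintype.card_fin, Fintype.card_fin, ← pow_mul,
      mul_comm _ m]
    exact hkk
  obtain ⟨f⟩ := Function.Embedding.nonempty_of_card_le hc
  obtain ⟨B, hB1, hB2, hB4, hB3⟩ := master (p := m) (N := n)
    (mixGadget (2 ^ (d * (a * (m - 2)))) (2 ^ a) m d n hd w hw) le_rfl
    (fun r v => f v r) (fun v v' h => f.injective (funext h)) hk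
    ⟨(⟨0, Nat.succ_pos _⟩ : Fin (st (2 ^ a) m))⟩ g (Fintype.card_pos_iff.2 ⟨g ⟨0, hk⟩⟩)
  rw [card_mixG, card_mixC] at hB3
  exact ⟨B, hB1, hB2, hB4, hB3⟩

end Pool.Agent.TEU
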